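import Pool.Agent.W927.BM.Stm

set_option autoImplicit false

noncomputable section

namespace Pool.Agent.W723.BM.Wall

open Pool.Agent.W927.BM

/-- the second coordinate of a centre -/
def xi (z : ℤ × ℤ) : ℝ := (z.2 : ℝ) - z.1 / 2

/-- slopes -/
def kap (i : ℕ) : ℝ := 1 / 8 + (1 / 2) ^ (i + 3)

lemma kap_le (i : ℕ) : kap i ≤ 1 / 4 := by
  unfold kap
  have h : ((1 : ℝ) / 2) ^ (i + 3) ≤ (1 / 2) ^ 3 :=
    pow_le_pow_of_le_one (by norm_num) (by norm_num) (by omega)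
  norm_num at h ⊢
  linarith

lemma kap_pos (i : ℕ) : 0 < kap i := by
  unfold kap
  positivity

lemma kap_sub (i : ℕ) : kap i - kap (i + 1) = (1 / 2) ^ (i + 4) := by
  unfold kap
  rw [show i + 1 + 3 = (i + 3) + 1 by ring, show i + 4 = (i + 3) + 1 by ring, pow_succ]
  ring

lemma Sk_pos (k : ℕ) : 2 ^ 16 ≤ Sk k := by
  induction k with
  | zero => simp [Sk]
  | succ k ih =>
    simp only [Sk]
    have h1 : (1 : ℤ) ≤ 2 ^ (3 * k + 48) := one_le_pow₀ (by norm_num)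
    nlinarith

lemma Tk_big (k : ℕ) : 2 ^ 32 ≤ Tk k := by
  unfold Tk
  have h1 := Sk_pos k
  have h2 : (2 : ℤ) ^ 16 ≤ 2 ^ (k + 16) := pow_le_pow_right₀ (by norm_num) (by omega)
  nlinarith

lemma Tk_succ (k : ℕ) : Tk (k + 1) = 2 ^ (3 * k + 49) * Tk k := by
  unfold Tk
  simp only [Sk]
  rw [show k + 1 + 16 = (k + 16) + 1 by ring, show 3 * k + 49 = (3 * k + 48) + 1 by ring,
    pow_succ 2 (k + 16), pow_succ 2 (3 * k + 48)]
  ring

lemma Rk_eq (k : ℕ) : Rk k = 2 ^ (k + 16) * Tk k := by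
  unfold Rk Tk
  rw [← mul_assoc, ← pow_add]
  congr 2
  ring

lemma sum_le (i : ℕ) : ∑ l ∈ Finset.range i, 16 * (Tk l : ℝ) ≤ (Tk i : ℝ) / 4 := by
  induction i with
  | zero =>
    have := Tk_big 0
    have h : ((2 ^ 32 : ℤ) : ℝ) ≤ (Tk 0 : ℝ) := by exact_mod_cast this
    simp only [Finset.range_zero, Finset.sum_empty]
    push_cast at h
    linarith [show (0 : ℝ) ≤ 2 ^ 32 by positivity]
  | succ i ih =>
    rw [Finset.sum_range_succ, Tk_succ]
    have := Tk_big i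
    have h : ((2 ^ 32 : ℤ) : ℝ) ≤ (Tk i : ℝ) := by exact_mod_cast this
    push_cast at h ⊢
    have h0 : (0 : ℝ) ≤ Tk i := le_trans (by positivity) h
    have h1 : (2 : ℝ) ^ 49 ≤ 2 ^ (3 * i + 49) := pow_le_pow_right₀ (by norm_num) (by omega)
    have h2 : (2 : ℝ) ^ 49 * Tk i ≤ 2 ^ (3 * i + 49) * Tk i := mul_le_mul_of_nonneg_right h1 h0
    have h3 : (2 : ℝ) ^ 49 ≥ 68 := by norm_num
    nlinarith

/-- One step at the level `i`. -/
lemma step (i : ℕ) (Ci : Set (ℤ × ℤ)) (hsep : Sep Ci (Rk i)) (g : ℤ → ℝ)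
    (hg : ∀ s t : ℤ, |g s - g t| ≤ kap (i + 1) * |(s : ℝ) - t|) :
    ∃ g' : ℤ → ℝ, (∀ s t : ℤ, |g' s - g' t| ≤ kap i * |(s : ℝ) - t|) ∧
      (∀ t, g t ≤ g' t) ∧ (∀ t, g' t ≤ g t + 16 * (Tk i : ℝ)) ∧
      (∀ z ∈ Ci, ∀ t : ℤ, |t - z.1| ≤ 4 * Tk i → 2 * (Tk i : ℝ) ≤ |g' t - xi z|) ∧
      (∀ t : ℤ, (∀ z ∈ Ci, 2 ^ (i + 12) * (Tk i : ℝ) ≤ max |(t : ℝ) - z.1| |g t - xi z|) →
        g' t = g t) := by
  have hTb : ((2 ^ 32 : ℤ) : ℝ) ≤ (Tk i : ℝ) := by exact_mod_cast Tk_big i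
  push_cast at hTb
  have hT0 : (0 : ℝ) < Tk i := lt_of_lt_of_le (by positivity) hTb
  obtain ⟨T, hT⟩ : ∃ T : ℝ, T = Tk i := ⟨_, rfl⟩
  rw [← hT] at hTb hT0
  simp only [← hT]
  have hk1 := kap_le i
  have hk1' := kap_le (i + 1)
  have hk0 := kap_pos i
  have hk0' := kap_pos (i + 1)
  have hks := kap_sub i
  have hd0 : (0 : ℝ) < (1 / 2) ^ (i + 4) := by positivity
  have hkk : kap (i + 1) ≤ kap i := by linarith
  -- the length
  obtain ⟨L, hL⟩ : ∃ L : ℝ, L = 2 ^ (i + 8) * T := ⟨_, rfl⟩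
  have hL2 : (1 / 2 : ℝ) ^ (i + 4) * L = 16 * T := by
    rw [hL, show i + 8 = (i + 4) + 4 by ring, pow_add 2 (i + 4) 4, one_div, inv_pow]
    field_simp
    norm_num
  have hp8 : (2 : ℝ) ^ 8 ≤ 2 ^ (i + 8) := pow_le_pow_right₀ (by norm_num) (by omega)
  have hLT : 256 * T ≤ L := by
    rw [hL]
    have : (2 : ℝ) ^ 8 * T ≤ 2 ^ (i + 8) * T := mul_le_mul_of_nonneg_right hp8 hT0.le
    norm_num at this ⊢
    linarith
  -- hit centres
  set Hit : Set (ℤ × ℤ) := {z | z ∈ Ci ∧ ∃ r : ℤ, |(r : ℝ) - z.1| ≤ 4 * T ∧ |g r - xi z| ≤ 4 * T}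
    with hHit
  set cone : ℤ × ℤ → ℤ → ℝ := fun z t => xi z + 8 * T - kap i * |(t : ℝ) - z.1| with hcone
  have close : ∀ z ∈ Hit, ∀ t : ℤ, |g t - xi z| ≤ 4 * T + kap (i + 1) * (|(t : ℝ) - z.1| + 4 * T) := by
    rintro z ⟨hz, r, hr1, hr2⟩ t
    have h1 := hg t r
    have h2 : |(t : ℝ) - r| ≤ |(t : ℝ) - z.1| + 4 * T := by
      calc |(t : ℝ) - r| = |((t : ℝ) - z.1) - ((r : ℝ) - z.1)| := by ring_nf
        _ ≤ |(t : ℝ) - z.1| + |(r : ℝ) - z.1| := abs_sub _ _
        _ ≤ _ := by linarith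
    have h3 : kap (i + 1) * |(t : ℝ) - r| ≤ kap (i + 1) * (|(t : ℝ) - z.1| + 4 * T) :=
      mul_le_mul_of_nonneg_left h2 hk0'.le
    calc |g t - xi z| = |(g t - g r) + (g r - xi z)| := by ring_nf
      _ ≤ |g t - g r| + |g r - xi z| := abs_add_le _ _
      _ ≤ _ := by linarith
  have conele : ∀ z ∈ Hit, ∀ t : ℤ,
      cone z t ≤ g t + 16 * T - (1 / 2) ^ (i + 4) * |(t : ℝ) - z.1| := by
    intro z hz t
    have h1 := close z hz t
    rw [abs_le] at h1
    rw [← hks]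
    simp only [hcone]
    have h2 : kap (i + 1) * (4 * T) ≤ 1 / 4 * (4 * T) :=
      mul_le_mul_of_nonneg_right hk1' (by positivity)
    nlinarith [h1.1]
  set S : ℤ → Set ℝ := fun t => {y | y = g t ∨ ∃ z ∈ Hit, y = cone z t} with hS
  have hbd : ∀ t, ∀ y ∈ S t, y ≤ g t + 16 * T := by
    rintro t y (rfl | ⟨z, hz, rfl⟩)
    · linarith
    · have h1 := conele z hz t
      have h2 : (0 : ℝ) ≤ (1 / 2) ^ (i + 4) * |(t : ℝ) - z.1| := by positivity
      linarith
  have hbdd : ∀ t, BddAbove (S t) := fun t => ⟨_, fun y hy => hbd t y hy⟩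
  have hne : ∀ t, (S t).Nonempty := fun t => ⟨g t, Or.inl rfl⟩
  have hge : ∀ t, g t ≤ sSup (S t) := fun t => le_csSup (hbdd t) (Or.inl rfl)
  have hcge : ∀ z ∈ Hit, ∀ t, cone z t ≤ sSup (S t) :=
    fun z hz t => le_csSup (hbdd t) (Or.inr ⟨z, hz, rfl⟩)
  have hle : ∀ t, sSup (S t) ≤ g t + 16 * T := fun t => csSup_le (hne t) (hbd t)
  have hex : ∀ t, sSup (S t) ≠ g t → ∃ z ∈ Hit, |(t : ℝ) - z.1| < L := by
    intro t ht
    have h1 : g t < sSup (S t) := lt_of_le_of_ne (hge t) (Ne.symm ht)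
    obtain ⟨y, hy, hgy⟩ := exists_lt_of_lt_csSup (hne t) h1
    rcases hy with rfl | ⟨z, hz, rfl⟩
    · exact absurd hgy (lt_irrefl _)
    · refine ⟨z, hz, ?_⟩
      have h2 := conele z hz t
      have h3 : (1 / 2 : ℝ) ^ (i + 4) * |(t : ℝ) - z.1| < (1 / 2) ^ (i + 4) * L := by
        rw [hL2]; linarith
      exact lt_of_mul_lt_mul_left h3 hd0.le
  have closeL : ∀ z ∈ Hit, ∀ t : ℤ, |(t : ℝ) - z.1| < L → |g t - xi z| ≤ 5 * T + L / 4 := by
    intro z hz t ht
    have h1 := close z hz t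
    have h2 : kap (i + 1) * (|(t : ℝ) - z.1| + 4 * T) ≤ 1 / 4 * (L + 4 * T) :=
      mul_le_mul hk1' (by linarith) (by positivity) (by norm_num)
    linarith
  refine ⟨fun t => sSup (S t), ?_, hge, hle, ?_, ?_⟩
  · -- Lipschitz
    have key : ∀ s t : ℤ, sSup (S s) ≤ sSup (S t) + kap i * |(s : ℝ) - t| := by
      intro s t
      apply csSup_le (hne s)
      rintro y (rfl | ⟨z, hz, rfl⟩)
      · have h1 := hg s t
        have h2 : kap (i + 1) * |(s : ℝ) - t| ≤ kap i * |(s : ℝ) - t| :=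
          mul_le_mul_of_nonneg_right hkk (abs_nonneg _)
        have h3 := hge t
        have h4 := (abs_le.mp h1).2
        linarith
      · have h1 := hcge z hz t
        have h2 : |(t : ℝ) - z.1| ≤ |(s : ℝ) - z.1| + |(s : ℝ) - t| := by
          calc |(t : ℝ) - z.1| = |((s : ℝ) - z.1) - ((s : ℝ) - t)| := by ring_nf
            _ ≤ _ := abs_sub _ _
        have h3 : kap i * |(t : ℝ) - z.1| ≤ kap i * (|(s : ℝ) - z.1| + |(s : ℝ) - t|) :=
          mul_le_mul_of_nonneg_left h2 hk0.le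
        simp only [hcone] at h1 ⊢
        nlinarith
    intro s t
    rw [abs_le]
    have h1 := key s t
    have h2 := key t s
    rw [abs_sub_comm] at h2
    constructor <;> linarith
  · -- avoidance
    intro z hz t ht
    have ht' : |(t : ℝ) - z.1| ≤ 4 * T := by
      rw [hT]
      exact_mod_cast ht
    by_cases hh : z ∈ Hit
    · have h1 := hcge z hh t
      have h2 : kap i * |(t : ℝ) - z.1| ≤ 1 / 4 * (4 * T) :=
        mul_le_mul hk1 ht' (abs_nonneg _) (by norm_num)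
      simp only [hcone] at h1
      refine le_trans ?_ (le_abs_self _)
      linarith
    · have h1 : 4 * T < |g t - xi z| := by
        by_contra h
        push Not at h
        exact hh ⟨hz, t, ht', h⟩
      by_contra hcon
      push Not at hcon
      have h2 : sSup (S t) ≠ g t := by
        intro h
        rw [h] at hcon
        linarith
      obtain ⟨w, hw, hwL⟩ := hex t h2
      have h3 := closeL w hw t hwL
      have h4 := hge t
      have h5 := hle t
      rw [abs_lt] at hcon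
      rw [abs_le] at h3
      have h6 : |xi z - xi w| ≤ 23 * T + L / 4 := by
        rw [abs_le]
        constructor <;> linarith [hcon.1, hcon.2, h3.1, h3.2]
      have h7 : |(z.1 : ℝ) - w.1| ≤ 4 * T + L := by
        calc |(z.1 : ℝ) - w.1| = |((t : ℝ) - w.1) - ((t : ℝ) - z.1)| := by ring_nf
          _ ≤ |(t : ℝ) - w.1| + |(t : ℝ) - z.1| := abs_sub _ _
          _ ≤ _ := by linarith
      have h8 : |(z.2 : ℝ) - w.2| ≤ 25 * T + 3 / 4 * L := by
        have : (z.2 : ℝ) - w.2 = (xi z - xi w) + (z.1 - w.1) / 2 := by unfold xi; ring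
        rw [this]
        rw [abs_le] at h6 h7 ⊢
        constructor <;> linarith [h6.1, h6.2, h7.1, h7.2]
      have hR : 4 * T + L ≤ (Rk i : ℝ) ∧ 25 * T + 3 / 4 * L ≤ (Rk i : ℝ) := by
        have h9 : (Rk i : ℝ) = 2 ^ (i + 16) * T := by
          rw [Rk_eq, hT]; push_cast; ring
        have h10 : (Rk i : ℝ) = 2 ^ 8 * L := by
          rw [h9, hL, show i + 16 = 8 + (i + 8) by ring, pow_add]
          ring
        rw [h10]
        constructor <;> nlinarith
      have hne' : z ≠ w := by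
        rintro rfl
        exact hh hw
      have h11 := hsep z hz w hw.1 hne'
      have h12 : ((Rk i : ℤ) : ℝ) < ((dd z w : ℤ) : ℝ) := by exact_mod_cast h11
      unfold dd at h12
      push_cast at h12
      rw [lt_max_iff] at h12
      rcases h12 with h12 | h12
      · linarith [hR.1]
      · linarith [hR.2]
  · -- clearance
    intro t ht
    by_contra hcon
    obtain ⟨z, hz, hzL⟩ := hex t hcon
    have h1 := ht z hz.1
    have h2 := closeL z hz t hzL
    have h3 : 2 ^ (i + 12) * T = 16 * L := by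
      rw [hL, show i + 12 = 4 + (i + 8) by ring, pow_add]
      ring
    rw [h3, le_max_iff] at h1
    rcases h1 with h1 | h1 <;> linarith

/-- the statement at level `m` -/
lemma main_aux (k : ℕ) (C : ℕ → Set (ℤ × ℤ)) (hsep : ∀ i < k, Sep (C i) (Rk i)) (g₀ : ℤ → ℝ)
    (hg₀ : ∀ s t : ℤ, |g₀ s - g₀ t| ≤ 1 / 8 * |(s : ℝ) - t|) (m : ℕ) (hm : m ≤ k) :
    ∃ g : ℤ → ℝ, (∀ s t : ℤ, |g s - g t| ≤ kap m * |(s : ℝ) - t|) ∧
      (∀ t, g₀ t ≤ g t) ∧ (∀ t, g t ≤ g₀ t + ∑ i ∈ Finset.Ico m k, 16 * (Tk i : ℝ)) ∧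
      (∀ i, m ≤ i → i < k → ∀ z ∈ C i, ∀ t : ℤ, |t - z.1| ≤ 4 * Tk i →
        2 * (Tk i : ℝ) - ∑ l ∈ Finset.Ico m i, 16 * (Tk l : ℝ) ≤ |g t - xi z|) ∧
      (∀ t : ℤ, (∀ i, m ≤ i → i < k → ∀ z ∈ C i, 2 ^ (i + 12) * (Tk i : ℝ) ≤
        max |(t : ℝ) - z.1| |g₀ t - xi z|) → g t = g₀ t) := by
  induction hm using Nat.decreasingInduction with
  | self =>
    refine ⟨g₀, ?_, fun t => le_rfl, ?_, ?_, fun t _ => rfl⟩
    · intro s t
      refine (hg₀ s t).trans (mul_le_mul_of_nonneg_right ?_ (abs_nonneg _))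
      unfold kap
      have : (0 : ℝ) < (1 / 2) ^ (k + 3) := by positivity
      linarith
    · intro t
      simp
    · intro i h1 h2
      omega
  | of_succ m hm ih =>
    obtain ⟨g, hg, hlo, hhi, hav, hcl⟩ := ih
    obtain ⟨g', hg', hlo', hhi', hav', hcl'⟩ := step m (C m) (hsep m hm) g hg
    refine ⟨g', hg', fun t => (hlo t).trans (hlo' t), ?_, ?_, ?_⟩
    · intro t
      rw [Finset.sum_eq_sum_Ico_succ_bot hm]
      linarith [hhi t, hhi' t]
    · intro i hmi hik z hz t ht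
      rcases eq_or_lt_of_le hmi with rfl | hlt
      · simpa using hav' z hz t ht
      · have h1 := hav i hlt hik z hz t ht
        rw [Finset.sum_eq_sum_Ico_succ_bot hlt]
        have h2 := hlo' t
        have h3 := hhi' t
        have h4 : |g t - xi z| ≤ |g' t - xi z| + 16 * (Tk m : ℝ) := by
          calc |g t - xi z| = |(g' t - xi z) - (g' t - g t)| := by ring_nf
            _ ≤ |g' t - xi z| + |g' t - g t| := abs_sub _ _
            _ ≤ _ := by
              have : |g' t - g t| ≤ 16 * (Tk m : ℝ) := by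
                rw [abs_le]; constructor <;> linarith
              linarith
        linarith
    · intro t ht
      have h1 : g t = g₀ t := hcl t (fun i hi hik => ht i (by omega) hik)
      rw [hcl' t ?_, h1]
      rw [h1]
      exact ht m le_rfl hm

end Pool.Agent.W723.BM.Wall

namespace Pool.Agent.W723.BM

open Pool.Agent.W927.BM Wall

theorem main : Pool.Agent.W927.BM.S_WALL := by
  intro k C hsep g₀ hg₀
  obtain ⟨g, hg, hlo, hhi, hav, hcl⟩ := main_aux k C hsep g₀ hg₀ 0 (Nat.zero_le k)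
  refine ⟨g, ?_, hlo, ?_, ?_, ?_⟩
  · intro s t
    exact (hg s t).trans (mul_le_mul_of_nonneg_right (kap_le 0) (abs_nonneg _))
  · intro t
    rw [Finset.range_eq_Ico]
    exact hhi t
  · intro i hi z hz t ht
    have h1 := hav i (Nat.zero_le i) hi z hz t ht
    rw [← Finset.range_eq_Ico] at h1
    have h2 := sum_le i
    have hTb : ((2 ^ 32 : ℤ) : ℝ) ≤ (Tk i : ℝ) := by exact_mod_cast Tk_big i
    push_cast at hTb
    unfold xi at h1
    linarith
  · intro t ht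
    exact hcl t (fun i _ hi z hz => ht i hi z hz)

end Pool.Agent.W723.BM

end
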